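import Mathlib
import Pool.Agent.Helper67.R6.Fam

/-! Row LINK of the sheet `Pool.Agent.Helper67.R6.Fam`. -/

set_option autoImplicit false

namespace Pool.Helper67.R6

open Pool.Helper17.R5 (Ix)
open Pool.Helper13.R6 (SN6)

theorem link_card_box (m : ℕ) : (Box m).card = m ^ 8 := by
  unfold Box
  rw [Finset.card_product, Finset.card_product, Fintype.card_piFinset]
  simp only [Finset.card_range, Finset.prod_const, Finset.card_univ, Fintype.card_fin]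
  ring

theorem st_LINK (hE : ST_EX) (hF : ST_FOR) (hG : ST_GOOD) : ST_LINK := by
  classical
  intro C
  obtain ⟨C1, hG⟩ := hG
  refine ⟨C1, fun C2 hC2 ε hε => ?_⟩
  obtain ⟨C', hF⟩ := hF C
  obtain ⟨D, hD, hE⟩ := hE C' (ε / 2) (by positivity)
  refine ⟨33 + D, by linarith, fun m hm => ?_⟩
  obtain ⟨hfin, hcard⟩ := hE (m ^ 2) (Nat.one_le_pow _ _ hm)
  have hS : ∀ T : (ℕ × ℕ) × (Fin 6 → ℕ), ∃ S : Finset ℤ, S.card ≤ 33 ∧
      (T ∈ (Box m).filter (fun T => Gd C2 m T) → ∀ x : ℤ, |x| ≤ C * (m : ℤ) ^ 4 → x ∉ S →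
        (∃ Y : ℤ, Y ^ 2 = x ^ 3 + aA (ww m T) * x + aB (ww m T)) →
        nf (ww m T) x ∈ SN6 vs v7 C' 1 (m ^ 2)) := by
    intro T
    by_cases hT : T ∈ (Box m).filter (fun T => Gd C2 m T)
    · obtain ⟨hT1, hT2⟩ := Finset.mem_filter.1 hT
      obtain ⟨-, g2, g3⟩ := hG C2 hC2 m hm T hT1 hT2
      obtain ⟨⟨S, hS1, hS2⟩, -⟩ := hF m hm T hT1 g2 g3
      exact ⟨S, hS1, fun _ => hS2⟩
    · exact ⟨∅, by simp, fun h => absurd h hT⟩
  choose Bd hBd hB0 using hS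
  have hcast : ∀ x : ℤ, |x| ≤ (C : ℤ) * ((m ^ 2 : ℕ) : ℤ) ^ 2 ↔ |x| ≤ C * (m : ℤ) ^ 4 := by
    intro x
    have : ((m ^ 2 : ℕ) : ℤ) ^ 2 = (m : ℤ) ^ 4 := by push_cast; ring
    rw [this]
  have hI : ∀ T : (ℕ × ℕ) × (Fin 6 → ℕ), {x : ℤ | |x| ≤ (C : ℤ) * ((m ^ 2 : ℕ) : ℤ) ^ 2 ∧
      ∃ Y : ℤ, Y ^ 2 = x ^ 3 + aA (ww m T) * x + aB (ww m T)}.Finite := by
    intro T
    apply (Set.finite_Icc (-((C : ℤ) * ((m ^ 2 : ℕ) : ℤ) ^ 2))
      ((C : ℤ) * ((m ^ 2 : ℕ) : ℤ) ^ 2)).subset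
    rintro x ⟨hx, _⟩
    exact abs_le.1 hx
  let G : (ℕ × ℕ) × (Fin 6 → ℕ) → Finset ℤ := fun T => (hI T).toFinset \ Bd T
  have h1 : ∀ T, Ix C (m ^ 2) (aA (ww m T)) (aB (ww m T)) ≤ 33 + (G T).card := by
    intro T
    have h2 : Ix C (m ^ 2) (aA (ww m T)) (aB (ww m T)) = (hI T).toFinset.card := by
      unfold Ix
      exact Set.ncard_eq_toFinset_card _ (hI T)
    rw [h2]
    have h3 := Finset.card_le_card_sdiff_add_card (s := (hI T).toFinset) (t := Bd T)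
    have h4 := hBd T
    show _ ≤ 33 + ((hI T).toFinset \ Bd T).card
    omega
  have h5 : ∑ T ∈ (Box m).filter (fun T => Gd C2 m T), (G T).card ≤
      (SN6 vs v7 C' 1 (m ^ 2)).ncard := by
    rw [← Finset.card_sigma, Set.ncard_eq_toFinset_card _ hfin]
    apply Finset.card_le_card_of_injOn (fun p => nf (ww m p.1) p.2)
    · rintro ⟨T, x⟩ hp
      rw [Finset.mem_coe, Finset.mem_sigma] at hp
      obtain ⟨ht, hx⟩ := hp
      simp only at ht hx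
      rw [Finset.mem_sdiff, Set.Finite.mem_toFinset] at hx
      obtain ⟨⟨hx1, hx2⟩, hx3⟩ := hx
      rw [Finset.mem_coe, Set.Finite.mem_toFinset]
      exact hB0 T ht x ((hcast x).1 hx1) hx3 hx2
    · rintro ⟨T, x⟩ hp ⟨T', x'⟩ hp' heq
      rw [Finset.mem_coe, Finset.mem_sigma] at hp hp'
      obtain ⟨hT1, hT2⟩ := Finset.mem_filter.1 hp.1
      obtain ⟨hT1', -⟩ := Finset.mem_filter.1 hp'.1
      obtain ⟨-, g2, g3⟩ := hG C2 hC2 m hm T hT1 hT2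
      obtain ⟨h7, h8⟩ := (hF m hm T hT1 g2 g3).2 T' hT1' x x' heq
      subst h7
      subst h8
      rfl
  have h9 : ∑ T ∈ (Box m).filter (fun T => Gd C2 m T),
      Ix C (m ^ 2) (aA (ww m T)) (aB (ww m T)) ≤
      33 * m ^ 8 + (SN6 vs v7 C' 1 (m ^ 2)).ncard := by
    calc ∑ T ∈ (Box m).filter (fun T => Gd C2 m T),
        Ix C (m ^ 2) (aA (ww m T)) (aB (ww m T)) ≤
          ∑ T ∈ (Box m).filter (fun T => Gd C2 m T), (33 + (G T).card) :=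
        Finset.sum_le_sum fun T _ => h1 T
      _ = ((Box m).filter (fun T => Gd C2 m T)).card * 33 +
          ∑ T ∈ (Box m).filter (fun T => Gd C2 m T), (G T).card := by
        rw [Finset.sum_add_distrib, Finset.sum_const, smul_eq_mul]
      _ ≤ 33 * m ^ 8 + (SN6 vs v7 C' 1 (m ^ 2)).ncard := by
        have h10 : ((Box m).filter (fun T => Gd C2 m T)).card ≤ m ^ 8 := by
          rw [← link_card_box m]
          exact Finset.card_filter_le _ _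
        linarith
  have h11 : (∑ T ∈ (Box m).filter (fun T => Gd C2 m T),
      (Ix C (m ^ 2) (aA (ww m T)) (aB (ww m T)) : ℝ)) ≤
      33 * (m : ℝ) ^ 8 + ((SN6 vs v7 C' 1 (m ^ 2)).ncard : ℝ) := by
    exact_mod_cast h9
  have hm1 : (1 : ℝ) ≤ (m : ℝ) := by exact_mod_cast hm
  have h12 : (m : ℝ) ^ 8 ≤ (m : ℝ) ^ (8 + ε) := by
    have h13 : (m : ℝ) ^ 8 = (m : ℝ) ^ ((8 : ℝ)) := by
      rw [show (8 : ℝ) = ((8 : ℕ) : ℝ) by norm_num, Real.rpow_natCast]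
    rw [h13]
    exact Real.rpow_le_rpow_of_exponent_le hm1 (by linarith)
  have h14 : ((m ^ 2 : ℕ) : ℝ) ^ (4 + ε / 2) = (m : ℝ) ^ (8 + ε) := by
    rw [Nat.cast_pow, ← Real.rpow_natCast, ← Real.rpow_mul (by positivity)]
    congr 1
    push_cast
    ring
  rw [h14] at hcard
  calc (∑ T ∈ (Box m).filter (fun T => Gd C2 m T),
      (Ix C (m ^ 2) (aA (ww m T)) (aB (ww m T)) : ℝ)) ≤ _ := h11
    _ ≤ 33 * (m : ℝ) ^ (8 + ε) + D * (m : ℝ) ^ (8 + ε) := by linarith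
    _ = (33 + D) * (m : ℝ) ^ (8 + ε) := by ring

end Pool.Helper67.R6
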